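import Mathlib
import Pool.Agent.H200C.All
import Pool.Agent.H200C.AllNef

set_option autoImplicit false

/-!
# Nef classes with any number of arbitrary large coefficients

A real class `c H - ∑ x_i E_i` is in CHAINED form (`Pool.Agent.H200C.ChainR`) if there are a point `p` and a
set `A` of other points with ARBITRARY coefficients, and numbers `e ≥ 1`, `h ≥ 0` (`e` is the degree of the
first `h` curves of a chain, followed by lines), such that the other coefficients are at most `m` and
take at most `s` different values, with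
* `x p + e h + 2 ^ 30 e m ≤ c`, and `x p + e h + (x i - h) + 2 ^ 30 e m ≤ c` for `i ∈ A`;
* `e h + ∑_A max (x i - h) 0 + 2 ^ 33 m (e + g h) ≤ c`;
* `∑_A x i + 2 ^ 33 m e ^ 2 (1 + g 0) ≤ e c`;
* the squares of the other coefficients have the sum at least `2 ^ 29 s m ^ 2`;
where `g t` is the number of the `i ∈ A` with `t < x i ≤ t + 2 ^ 28 m`.

Let `p_1, …, p_n` be very general points of the complex projective plane. Every real class
`D = c H - ∑ x_i E_i` in chained form with `D ^ 2 ≥ 0` is nef; it is ample if all coefficients are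
positive and the inequalities for `c` are strict. All images of these classes under quadratic
transformations are nef.

For `e = 3`, `h = x_4` this includes all classes with `x_1 ≥ x_2 ≥ … ≥ x_a ≥ 2 ^ 29 m` ARBITRARY (any `a`),
`x_1 + x_2 + x_3 + 2 ^ 37 m ≤ c`, `x_1 + … + x_a + 2 ^ 37 m ≤ 3 c`, and any number of further
coefficients `≤ m` with at most `s` values and `∑ x_i ^ 2 ≥ 2 ^ 30 s m ^ 2`, if `D ^ 2 ≥ 0`.

The Harbourne-Hirschowitz conjecture (Q1) says that a class which is nonnegative on the `(-1)`-curves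
is nef if `D ^ 2 ≥ 0`.
-/

namespace Pool.Agent.Results.MP_309968_ag.ChainClasses

open Pool.Agent.H200W Pool.Agent.H200C
open Pool.Agent.Results.MP_309968_ag.BoundaryRays (MultGE curveClasses curvCone)

/-- The classes `c H - ∑ x_i E_i` in chained form with nonnegative self-intersection and their images
under quadratic transformations. -/
inductive Orb {n : ℕ} : ℝ → (Fin n → ℝ) → Prop
  | chain (c : ℝ) (x : Fin n → ℝ) : ChainR c x → ∑ i, x i ^ 2 ≤ c ^ 2 → Orb c x
  | quad (c : ℝ) (x : Fin n → ℝ) (i : Fin 3 → Fin n) : Function.Injective i → Orb c x →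
      Orb (qc i c x) (qx i c x)

theorem nef_chain {n : ℕ} {P : Fin n → Fin 2 → ℂ}
    (hP : AlgebraicIndependent ℚ (fun ij : Fin n × Fin 2 => P ij.1 ij.2)) {c : ℝ}
    {x : Fin n → ℝ} (h : ChainR c x) (hc : ∑ i, x i ^ 2 ≤ c ^ 2) : NefR P c x :=
  ⟨h.nonneg, fun G e u hG hGe hu => chain_nef hP h hc G e u hG.ne_zero hGe fun i => (hu i).1⟩

theorem nef_orb {n : ℕ} {c : ℝ} {x : Fin n → ℝ} (h : Orb c x) : ∀ P : Fin n → Fin 2 → ℂ,
    AlgebraicIndependent ℚ (fun ij : Fin n × Fin 2 => P ij.1 ij.2) → NefR P c x := by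
  induction h with
  | chain c x h hc => exact fun P hP => nef_chain hP h hc
  | quad c x i hi _ ih => exact NefR.quad ih hi

/-- For very general points `p` of the plane: (1) the real classes `c H - ∑ x_i E_i` in chained form
with nonnegative self-intersection, and all their images under quadratic transformations, are
nonnegative on the closed cone of curves of the blow-up; (2) if the class remains in chained form for
a smaller `c`, the self-intersection is positive and all coefficients are positive, then it is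
positive on all nonzero elements of the closed cone of curves. -/
theorem result (n : ℕ) :
    ∃ f : ℕ → MvPolynomial (Fin n × Fin 2) ℂ, (∀ k, f k ≠ 0) ∧
      ∀ p : Fin n → Fin 2 → ℂ,
        (∀ k, MvPolynomial.eval (fun q : Fin n × Fin 2 => p q.1 q.2) (f k) ≠ 0) →
        (∀ (c : ℝ) (x : Fin n → ℝ), Orb c x →
          ∀ z ∈ curvCone p, 0 ≤ c * z.1 - ∑ i, x i * z.2 i) ∧
        (∀ (c c' : ℝ) (x : Fin n → ℝ), ChainR c' x → c' < c → ∑ i, x i ^ 2 < c ^ 2 →
          (∀ i, 0 < x i) → ∀ z ∈ curvCone p, z ≠ 0 → 0 < c * z.1 - ∑ i, x i * z.2 i) := by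
  obtain ⟨f, hf, hf'⟩ := Pool.Agent.TH167.SH.exists_fam (Fin n × Fin 2)
  refine ⟨f, hf, fun p hp => ?_⟩
  have hP := (hf' fun q => p q.1 q.2).1 hp
  refine ⟨fun c x h => (nef_orb h p hP).cone, fun c c' x h hcc hc hx => ?_⟩
  have hc0 : 0 < c := lt_of_le_of_lt h.c_nonneg hcc
  have h1 : Real.sqrt (∑ i, x i ^ 2) < c := by
    rw [Real.sqrt_lt' hc0]
    exact hc
  have h2 : NefR p (max c' (Real.sqrt (∑ i, x i ^ 2))) x := by
    refine nef_chain hP (h.mono (le_max_left _ _)) ?_
    have h3 : ∑ i, x i ^ 2 = Real.sqrt (∑ i, x i ^ 2) ^ 2 :=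
      (Real.sq_sqrt (Finset.sum_nonneg fun i _ => sq_nonneg _)).symm
    calc ∑ i, x i ^ 2 = Real.sqrt (∑ i, x i ^ 2) ^ 2 := h3
      _ ≤ _ := pow_le_pow_left₀ (Real.sqrt_nonneg _) (le_max_right _ _) 2
  exact h2.ample (max_lt hcc h1) hx

end Pool.Agent.Results.MP_309968_ag.ChainClasses
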