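import Mathlib
import Pool.Agent.H200G.AllNef

set_option autoImplicit false

/-!
# Nef classes whose coefficients are unions of families, with rare values at every scale

The coefficients `x_1, …, x_n ≥ 0` of a real class `c H - ∑ x_i E_i` are a UNION OF FAMILIES
(`Pool.Agent.H200G.FamiliesR`) if the points can be divided into groups, of any number and any sizes, such
that in every group the sum of the squares of the coefficients is at least `2 ^ 30` times the number of
the different nonzero values times the square of the largest one. In every group there may be many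
values which occur only once; e.g. for any numbers `r_0, r_1, r_2, …`: for every `k` any `2 ^ 33 r_k`
coefficients between `2 ^ (-k-1)` and `2 ^ (-k)` with at most `r_k` different values. The number of the
scales and the ratios of the coefficients are arbitrary.

Let `p_1, …, p_n` be very general points of the complex projective plane. A real class
`D = c H - ∑ x_i E_i`, `c ≥ 0`, whose coefficients are a union of families is nef if and only if
`D ^ 2 ≥ 0`; it is ample if all coefficients are positive, `c > 0` and `D ^ 2 > 0`. All images of these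
classes under quadratic transformations are nef.

The Harbourne-Hirschowitz conjecture (Q1) says that a class which is nonnegative on the `(-1)`-curves
is nef if `D ^ 2 ≥ 0`. The starting file `RepeatedMultiplicities` treats classes in which every value
below a quarter of the largest one is taken many times.
-/

namespace Pool.Agent.Results.MP_309968_ag.FamiliesNef

open Pool.Agent.H200W Pool.Agent.H200G
open Pool.Agent.Results.MP_309968_ag.BoundaryRays (MultGE curveClasses curvCone)

/-- The classes `c H - ∑ x_i E_i` with `c ≥ 0`, nonnegative self-intersection and a union of families of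
coefficients, and their images under quadratic transformations. -/
inductive Orb {n : ℕ} : ℝ → (Fin n → ℝ) → Prop
  | fam (c : ℝ) (x : Fin n → ℝ) : 0 ≤ c → FamiliesR x → ∑ i, x i ^ 2 ≤ c ^ 2 → Orb c x
  | quad (c : ℝ) (x : Fin n → ℝ) (i : Fin 3 → Fin n) : Function.Injective i → Orb c x →
      Orb (qc i c x) (qx i c x)

theorem nef_fam {n : ℕ} {P : Fin n → Fin 2 → ℂ}
    (hP : AlgebraicIndependent ℚ (fun ij : Fin n × Fin 2 => P ij.1 ij.2)) {c : ℝ} (hc0 : 0 ≤ c)
    {x : Fin n → ℝ} (h : FamiliesR x) (hc : ∑ i, x i ^ 2 ≤ c ^ 2) : NefR P c x :=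
  ⟨h.1, fun G e u hG hGe hu => families_nef hP hc0 h hc G e u hG.ne_zero hGe fun i => (hu i).1⟩

theorem nef_orb {n : ℕ} {c : ℝ} {x : Fin n → ℝ} (h : Orb c x) : ∀ P : Fin n → Fin 2 → ℂ,
    AlgebraicIndependent ℚ (fun ij : Fin n × Fin 2 => P ij.1 ij.2) → NefR P c x := by
  induction h with
  | fam c x hc0 h hc => exact fun P hP => nef_fam hP hc0 h hc
  | quad c x i hi _ ih => exact NefR.quad ih hi

/-- For very general points `p` of the plane: (1) the real classes `c H - ∑ x_i E_i`, `c ≥ 0`, with a union
of families of coefficients and nonnegative self-intersection, and all their images under quadratic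
transformations, are nonnegative on the closed cone of curves of the blow-up; (2) if the coefficients
are positive, `c > 0` and the self-intersection is positive, then the class is positive on all nonzero
elements of the closed cone of curves. -/
theorem result (n : ℕ) :
    ∃ f : ℕ → MvPolynomial (Fin n × Fin 2) ℂ, (∀ k, f k ≠ 0) ∧
      ∀ p : Fin n → Fin 2 → ℂ,
        (∀ k, MvPolynomial.eval (fun q : Fin n × Fin 2 => p q.1 q.2) (f k) ≠ 0) →
        (∀ (c : ℝ) (x : Fin n → ℝ), Orb c x →
          ∀ z ∈ curvCone p, 0 ≤ c * z.1 - ∑ i, x i * z.2 i) ∧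
        ∀ (c : ℝ) (x : Fin n → ℝ), FamiliesR x → 0 < c → ∑ i, x i ^ 2 < c ^ 2 →
          (∀ i, 0 < x i) → ∀ z ∈ curvCone p, z ≠ 0 → 0 < c * z.1 - ∑ i, x i * z.2 i := by
  obtain ⟨f, hf, hf'⟩ := Pool.Agent.TH167.SH.exists_fam (Fin n × Fin 2)
  refine ⟨f, hf, fun p hp => ?_⟩
  have hP := (hf' fun q => p q.1 q.2).1 hp
  refine ⟨fun c x h => (nef_orb h p hP).cone, fun c x h hc0 hc hx => ?_⟩
  have h1 : Real.sqrt (∑ i, x i ^ 2) < c := by
    rw [Real.sqrt_lt' hc0]
    exact hc
  have h2 : NefR p (Real.sqrt (∑ i, x i ^ 2)) x :=
    nef_fam hP (Real.sqrt_nonneg _) h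
      (Real.sq_sqrt (Finset.sum_nonneg fun i _ => sq_nonneg _)).symm.le
  exact h2.ample h1 hx

end Pool.Agent.Results.MP_309968_ag.FamiliesNef
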