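import Mathlib
import Pool.Agent.H200M.NefCh

set_option autoImplicit false

/-!
# Nef classes with any number of arbitrary large coefficients on a chain of curves, the others arbitrary

The real class `c H - ∑ x_i E_i`, `x_i ≥ 0`, has a CHAIN OF ARBITRARY COEFFICIENTS with margin `t > 0`
(`Pool.Agent.H200M.CoreR`): there are a point `p` and a set `A` of other points with ARBITRARY coefficients,
and numbers `e ≥ 1`, `h ≥ 0` (`e` is the degree of the first `h` curves of a chain, followed by lines) with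
* `x p + e h + 2 ^ 28 e t ≤ c`, and `x p + e h + (x i - h) + 2 ^ 28 e t ≤ c` for `i ∈ A`;
* `e h + ∑_A max (x i - h) 0 + 2 ^ 32 t (e + g h) ≤ c`;
* `∑_A x i + 2 ^ 32 t e ^ 2 (1 + g 0) ≤ e c`;
where `g s` is the number of the `i ∈ A` with `s < x i ≤ s + 2 ^ 27 t`.

For every `0 < ε < 1` there is `γ(ε) > 0` with the following property. Let `p_1, …, p_n` be very general
points of the complex projective plane, let `V = c ^ 2 - ∑_{A ∪ p} x_i ^ 2` be the volume left by the chain.
If all other coefficients are at most `γ(ε) t` and `D ^ 2 ≥ ε V`, i.e. the others have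
`∑ x_i ^ 2 ≤ (1 - ε) V` (`Pool.Agent.H200M.RoomCh`), then `D = c H - ∑ x_i E_i` is nef; if this holds for some
`c' < c` and all `x_i > 0`, then `D` is ample. All images of these classes under quadratic transformations
are nef. The number of points and of coefficients is arbitrary, `γ` depends on `ε` only.

For `e = 3`, `h = x_4` this includes all classes with `x_1 ≥ x_2 ≥ …`, `x_a > 2 ^ 27 t` (any `a`),
`x_1 + x_2 + x_3 + 2 ^ 36 t ≤ c`, `x_1 + … + x_a + 2 ^ 36 t ≤ 3 c`, and any number of further coefficients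
`≤ γ(ε) t`, if `D ^ 2 ≥ ε V`.

The Harbourne-Hirschowitz conjecture (Q1) says that a class which is nonnegative on the `(-1)`-curves
is nef if `D ^ 2 ≥ 0`.
-/

namespace Pool.Agent.Results.MP_309968_ag.NefCurveChains

open Pool.Agent.H200W Pool.Agent.H200M
open Pool.Agent.Results.MP_309968_ag.BoundaryRays (MultGE curveClasses curvCone)

/-- The classes `c H - ∑ x_i E_i` with `RoomCh (γ ε) ε c x` for some `0 < ε < 1`, and their images under
quadratic transformations. -/
inductive Orb (γ : ℝ → ℝ) {n : ℕ} : ℝ → (Fin n → ℝ) → Prop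
  | room (ε c : ℝ) (x : Fin n → ℝ) : 0 < ε → ε < 1 → RoomCh (γ ε) ε c x → Orb γ c x
  | quad (c : ℝ) (x : Fin n → ℝ) (i : Fin 3 → Fin n) : Function.Injective i → Orb γ c x →
      Orb γ (qc i c x) (qx i c x)

/-- There is a function `γ` with positive values such that for every number `n` of very general points
`p` of the plane: (1) the real classes `c H - ∑ x_i E_i` with `RoomCh (γ ε) ε c x` for some `0 < ε < 1`,
and all their images under quadratic transformations, are nonnegative on the closed cone of curves of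
the blow-up; (2) if the class satisfies `RoomCh` already for a smaller `c`, and all coefficients are
positive, then it is positive on all nonzero elements of the closed cone of curves. -/
theorem result : ∃ γ : ℝ → ℝ, (∀ ε, 0 < ε → 0 < γ ε) ∧ ∀ n : ℕ,
    ∃ f : ℕ → MvPolynomial (Fin n × Fin 2) ℂ, (∀ k, f k ≠ 0) ∧
      ∀ p : Fin n → Fin 2 → ℂ,
        (∀ k, MvPolynomial.eval (fun q : Fin n × Fin 2 => p q.1 q.2) (f k) ≠ 0) →
        (∀ (c : ℝ) (x : Fin n → ℝ), Orb γ c x →
          ∀ z ∈ curvCone p, 0 ≤ c * z.1 - ∑ i, x i * z.2 i) ∧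
        (∀ (ε c c' : ℝ) (x : Fin n → ℝ), 0 < ε → ε < 1 → RoomCh (γ ε) ε c' x → c' < c →
          (∀ i, 0 < x i) → ∀ z ∈ curvCone p, z ≠ 0 → 0 < c * z.1 - ∑ i, x i * z.2 i) := by
  obtain ⟨γ, hγ, H⟩ := nef_roomCh
  have nef_room : ∀ {n : ℕ} {P : Fin n → Fin 2 → ℂ},
      AlgebraicIndependent ℚ (fun ij : Fin n × Fin 2 => P ij.1 ij.2) →
      ∀ {ε c : ℝ} {x : Fin n → ℝ}, 0 < ε → ε < 1 → RoomCh (γ ε) ε c x → NefR P c x :=
    fun {n P} hP {ε c x} hε hε1 h =>
      ⟨h.1, fun G e u hG hGe hu => H ε hε hε1 hP c x h G e u hG.ne_zero hGe fun i => (hu i).1⟩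
  have nef_orb : ∀ {n : ℕ} {c : ℝ} {x : Fin n → ℝ}, Orb γ c x → ∀ P : Fin n → Fin 2 → ℂ,
      AlgebraicIndependent ℚ (fun ij : Fin n × Fin 2 => P ij.1 ij.2) → NefR P c x := by
    intro n c x h
    induction h with
    | room ε c x hε hε1 h => exact fun P hP => nef_room hP hε hε1 h
    | quad c x i hi _ ih => exact NefR.quad ih hi
  refine ⟨γ, hγ, fun n => ?_⟩
  obtain ⟨f, hf, hf'⟩ := Pool.Agent.TH167.SH.exists_fam (Fin n × Fin 2)
  refine ⟨f, hf, fun p hp => ?_⟩
  have hP := (hf' fun q => p q.1 q.2).1 hp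
  exact ⟨fun c x h => (nef_orb h p hP).cone, fun ε c c' x hε hε1 h hcc hx =>
    (nef_room hP hε hε1 h).ample hcc hx⟩

end Pool.Agent.Results.MP_309968_ag.NefCurveChains
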