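import Mathlib
import Pool.Agent.H200M.Nef2

set_option autoImplicit false

/-!
# Nef classes with three arbitrary coefficients and arbitrary middle ones

The real class `c H - ∑ x_i E_i`, `x_i ≥ 0`, satisfies `Pool.Agent.H200M.Room3 g ε` if there are three points
`p` with ARBITRARY coefficients `x (p 2) ≤ x (p 1) ≤ x (p 0)`, `x (p 0) + x (p 1) + x (p 2) ≤ c`,
`x (p 0) < c`, the others are at most `g (c - x (p 0))`, and, with the volume `V = c ^ 2 - ∑_j x (p j) ^ 2` left
by the three points, one of the following holds (sums over the other points):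
* `∑ x_i ^ 2 ≤ (1 - ε) V`, i.e. `D ^ 2 ≥ ε V`;
* for some `M` all nonzero values `≤ M` at the other points are taken at least `2 ^ 29` times there, or the
  number `k` of the values `≤ M` satisfies `(k + 1) M ^ 2 ≤ g V`; and the coefficients `≤ g M` have
  `∑ x_i ^ 2 ≥ ε V`.
In the first case all other coefficients are arbitrary numbers up to `g (c - x (p 0))`, in the second case
those between `g M` and `g (c - x (p 0))`.

For every `ε > 0` there is `γ(ε) > 0` with the following property. Let `p_1, …, p_n` be very general points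
of the complex projective plane. Every real class `D = c H - ∑ x_i E_i` with `Room3 (γ ε) ε` and
`D ^ 2 ≥ 0` is nef; if the upper bounds are strict (`Room3S`), `D ^ 2 > 0` and all coefficients are
positive, it is ample. All images of these classes under quadratic transformations are nef. So a class with
`x_1 + x_2 + x_3 ≤ c` (`x_1 ≥ x_2 ≥ …`) and `x_4 ≤ γ(ε) (c - x_1)` is nef if `D ^ 2 ≥ ε (c ^ 2 - x_1 ^ 2 - x_2 ^ 2 - x_3 ^ 2)`.

The Harbourne-Hirschowitz conjecture (Q1) says that a class which is nonnegative on the `(-1)`-curves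
is nef if `D ^ 2 ≥ 0`.
-/

namespace Pool.Agent.Results.MP_309968_ag.NefThreeArbitrary

open Pool.Agent.H200W Pool.Agent.H200M
open Pool.Agent.Results.MP_309968_ag.BoundaryRays (MultGE curveClasses curvCone)

/-- The classes `c H - ∑ x_i E_i` with `Room3 (γ ε) ε c x` for some `ε > 0` and nonnegative
self-intersection, and their images under quadratic transformations. -/
inductive Orb (γ : ℝ → ℝ) {n : ℕ} : ℝ → (Fin n → ℝ) → Prop
  | room (ε c : ℝ) (x : Fin n → ℝ) : 0 < ε → Room3 (γ ε) ε c x → ∑ i, x i ^ 2 ≤ c ^ 2 → Orb γ c x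
  | quad (c : ℝ) (x : Fin n → ℝ) (i : Fin 3 → Fin n) : Function.Injective i → Orb γ c x →
      Orb γ (qc i c x) (qx i c x)

/-- There is a function `γ` with positive values such that for every number `n` of very general points
`p` of the plane: (1) the real classes `c H - ∑ x_i E_i` with nonnegative self-intersection and
`Room3 (γ ε) ε c x` for some `ε > 0`, and all their images under quadratic transformations, are
nonnegative on the closed cone of curves of the blow-up; (2) if the upper bounds are strict, the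
self-intersection is positive and all coefficients are positive, then the class is positive on all
nonzero elements of the closed cone of curves. -/
theorem result : ∃ γ : ℝ → ℝ, (∀ ε, 0 < ε → 0 < γ ε) ∧ ∀ n : ℕ,
    ∃ f : ℕ → MvPolynomial (Fin n × Fin 2) ℂ, (∀ k, f k ≠ 0) ∧
      ∀ p : Fin n → Fin 2 → ℂ,
        (∀ k, MvPolynomial.eval (fun q : Fin n × Fin 2 => p q.1 q.2) (f k) ≠ 0) →
        (∀ (c : ℝ) (x : Fin n → ℝ), Orb γ c x →
          ∀ z ∈ curvCone p, 0 ≤ c * z.1 - ∑ i, x i * z.2 i) ∧
        (∀ (ε c : ℝ) (x : Fin n → ℝ), 0 < ε → Room3S (γ ε) ε c x →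
          ∑ i, x i ^ 2 < c ^ 2 → (∀ i, 0 < x i) →
          ∀ z ∈ curvCone p, z ≠ 0 → 0 < c * z.1 - ∑ i, x i * z.2 i) := by
  obtain ⟨γ, hγ, H⟩ := nef_room
  have nef_room3 : ∀ {n : ℕ} {P : Fin n → Fin 2 → ℂ},
      AlgebraicIndependent ℚ (fun ij : Fin n × Fin 2 => P ij.1 ij.2) →
      ∀ {ε c : ℝ} {x : Fin n → ℝ}, 0 < ε → Room3 (γ ε) ε c x → ∑ i, x i ^ 2 ≤ c ^ 2 →
        NefR P c x := fun {n P} hP {ε c x} hε h hc =>
    ⟨h.1, fun G e u hG hGe hu => H ε hε hP c x h hc G e u hG.ne_zero hGe fun i => (hu i).1⟩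
  have nef_orb : ∀ {n : ℕ} {c : ℝ} {x : Fin n → ℝ}, Orb γ c x → ∀ P : Fin n → Fin 2 → ℂ,
      AlgebraicIndependent ℚ (fun ij : Fin n × Fin 2 => P ij.1 ij.2) → NefR P c x := by
    intro n c x h
    induction h with
    | room ε c x hε h hc => exact fun P hP => nef_room3 hP hε h hc
    | quad c x i hi _ ih => exact NefR.quad ih hi
  refine ⟨γ, hγ, fun n => ?_⟩
  obtain ⟨f, hf, hf'⟩ := Pool.Agent.TH167.SH.exists_fam (Fin n × Fin 2)
  refine ⟨f, hf, fun p hp => ?_⟩
  have hP := (hf' fun q => p q.1 q.2).1 hp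
  refine ⟨fun c x h => (nef_orb h p hP).cone, fun ε c x hε h hc hx => ?_⟩
  obtain ⟨c', h1, h2, h3⟩ := h.shrink hε hc
  exact (nef_room3 hP hε h2 h3).ample h1 hx

end Pool.Agent.Results.MP_309968_ag.NefThreeArbitrary
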